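import Mathlib

set_option autoImplicit false
set_option linter.unusedSectionVars false

open Set Filter Topology

namespace Pool.Agent.Q76.HR

variable {F : Type*} [NormedAddCommGroup F] [InnerProductSpace ℝ F]

/-- The Euclidean product `F × ℝ`. -/
abbrev Sp (F : Type*) := WithLp 2 (F × ℝ)

/-- The point `(x, t)`. -/
def pt (x : F) (t : ℝ) : Sp F := WithLp.toLp 2 (x, t)

@[simp] lemma pt_fst (x : F) (t : ℝ) : (pt x t).fst = x := rfl
@[simp] lemma pt_snd (x : F) (t : ℝ) : (pt x t).snd = t := rfl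

@[simp] lemma fst_add (p q : Sp F) : (p + q).fst = p.fst + q.fst := rfl
@[simp] lemma snd_add (p q : Sp F) : (p + q).snd = p.snd + q.snd := rfl
@[simp] lemma fst_sub (p q : Sp F) : (p - q).fst = p.fst - q.fst := rfl
@[simp] lemma snd_sub (p q : Sp F) : (p - q).snd = p.snd - q.snd := rfl
@[simp] lemma fst_neg (p : Sp F) : (-p).fst = -p.fst := rfl
@[simp] lemma snd_neg (p : Sp F) : (-p).snd = -p.snd := rfl
@[simp] lemma fst_smul (s : ℝ) (p : Sp F) : (s • p).fst = s • p.fst := rfl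
@[simp] lemma snd_smul (s : ℝ) (p : Sp F) : (s • p).snd = s * p.snd := rfl
@[simp] lemma fst_zero : (0 : Sp F).fst = 0 := rfl
@[simp] lemma snd_zero : (0 : Sp F).snd = 0 := rfl

lemma ext' {p q : Sp F} (h1 : p.fst = q.fst) (h2 : p.snd = q.snd) : p = q := by
  have : p.ofLp = q.ofLp := Prod.ext h1 h2
  exact (WithLp.ofLp_injective 2) this

lemma cont_fst : Continuous fun p : Sp F => p.fst := by
  have := WithLp.prod_continuous_ofLp 2 F ℝ
  exact continuous_fst.comp this

lemma cont_snd : Continuous fun p : Sp F => p.snd := by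
  have := WithLp.prod_continuous_ofLp 2 F ℝ
  exact continuous_snd.comp this

lemma cont_pt : Continuous fun p : F × ℝ => pt p.1 p.2 := by
  have := WithLp.prod_continuous_toLp 2 F ℝ
  exact this

lemma inner_sp (p q : Sp F) : inner ℝ p q = inner ℝ p.fst q.fst + p.snd * q.snd := by
  rw [WithLp.prod_inner_apply]
  simp only [real_inner_eq_re_inner, RCLike.inner_apply, conj_trivial]
  congr 1
  exact mul_comm _ _

/-- The vertical unit vector. -/
def ev : Sp F := pt 0 1

@[simp] lemma ev_fst : (ev : Sp F).fst = 0 := rfl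
@[simp] lemma ev_snd : (ev : Sp F).snd = 1 := rfl

lemma inner_ev (p : Sp F) : inner ℝ p ev = p.snd := by
  rw [inner_sp]; simp

lemma norm_ev : ‖(ev : Sp F)‖ = 1 := by
  have h : inner ℝ (ev : Sp F) ev = 1 := by rw [inner_ev]; simp
  have h2 := real_inner_self_eq_norm_sq (ev : Sp F)
  rw [h] at h2
  nlinarith [norm_nonneg (ev : Sp F)]

/-- The points of the graph. -/
def Gr (f : F → ℝ) : Set (Sp F) := {p | p.snd = f p.fst}

/-- The directions above all secants of the graph. -/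
def Co (f : F → ℝ) : Set (Sp F) := {p | ∀ (x : F) (s : ℝ), 0 < s → f (x + s • p.fst) ≤ f x + s * p.snd}

/-- The translations preserving the graph. -/
def La (f : F → ℝ) : Submodule ℝ (Sp F) where
  carrier := {p | ∀ (x : F) (s : ℝ), f (x + s • p.fst) = f x + s * p.snd}
  add_mem' := by
    intro p q hp hq x s
    have h1 := hp x s
    have h2 := hq (x + s • p.fst) s
    simp only [fst_add, snd_add, smul_add]
    rw [← add_assoc, h2, h1]
    ring
  zero_mem' := by intro x s; simp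
  smul_mem' := by
    intro r p hp x s
    have h1 := hp x (s * r)
    simp only [fst_smul, snd_smul, smul_smul]
    rw [h1]; ring

lemma mem_La {f : F → ℝ} {p : Sp F} :
    p ∈ La f ↔ ∀ (x : F) (s : ℝ), f (x + s • p.fst) = f x + s * p.snd := Iff.rfl

lemma mem_Co {f : F → ℝ} {p : Sp F} :
    p ∈ Co f ↔ ∀ (x : F) (s : ℝ), 0 < s → f (x + s • p.fst) ≤ f x + s * p.snd := Iff.rfl

lemma Co_closed {f : F → ℝ} (hf : Continuous f) : IsClosed (Co f) := by
  have : Co f = ⋂ (x : F) (s : ℝ) (_ : 0 < s), {p : Sp F | f (x + s • p.fst) ≤ f x + s * p.snd} := by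
    ext p; simp [Co]
  rw [this]
  refine isClosed_iInter fun x => isClosed_iInter fun s => isClosed_iInter fun _ => ?_
  refine isClosed_le ?_ ?_
  · exact hf.comp (continuous_const.add (cont_fst.const_smul s))
  · exact continuous_const.add (cont_snd.const_mul s)

lemma Co_add {f : F → ℝ} {p q : Sp F} (hp : p ∈ Co f) (hq : q ∈ Co f) : p + q ∈ Co f := by
  intro x s hs
  have h1 := hp x s hs
  have h2 := hq (x + s • p.fst) s hs
  simp only [fst_add, snd_add, smul_add]
  rw [← add_assoc]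
  nlinarith

lemma Co_smul {f : F → ℝ} {p : Sp F} (hp : p ∈ Co f) {r : ℝ} (hr : 0 ≤ r) : r • p ∈ Co f := by
  intro x s hs
  rcases hr.eq_or_lt with h0 | h0
  · subst h0; simp
  · have h1 := hp x (s * r) (mul_pos hs h0)
    simp only [fst_smul, snd_smul, smul_smul]
    calc _ ≤ _ := h1
      _ = _ := by ring

lemma La_sub_Co {f : F → ℝ} {p : Sp F} (hp : p ∈ La f) : p ∈ Co f := fun x s _ => (hp x s).le

lemma ev_mem_Co (f : F → ℝ) : ev ∈ Co f := by
  intro x s hs; simp; exact hs.le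

lemma neg_ev_not_mem_Co (f : F → ℝ) : -ev ∉ Co f := by
  intro h
  have := h 0 1 one_pos
  simp at this
  linarith

lemma ev_not_mem_La (f : F → ℝ) : ev ∉ La f := fun h =>
  neg_ev_not_mem_Co f (La_sub_Co ((La f).neg_mem h))

lemma mem_La_of_Co {f : F → ℝ} {p : Sp F} (hp : p ∈ Co f) (hn : -p ∈ Co f) : p ∈ La f := by
  have key : ∀ (x : F) (s : ℝ), 0 < s → f (x + s • p.fst) = f x + s * p.snd := by
    intro x s hs
    refine le_antisymm (hp x s hs) ?_
    have h2 := hn (x + s • p.fst) s hs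
    simp only [fst_neg, snd_neg, smul_neg, add_neg_cancel_right] at h2
    linarith
  intro x s
  rcases lt_trichotomy s 0 with hs | hs | hs
  · have h := key (x + s • p.fst) (-s) (by linarith)
    simp only [neg_smul, add_neg_cancel_right] at h
    linarith
  · subst hs; simp
  · exact key x s hs

/-- The isometry `p ↦ O p + τ` maps the graph of `f` onto the graph of `g`. -/
def Rel (O : Sp F ≃ₗᵢ[ℝ] Sp F) (τ : Sp F) (f g : F → ℝ) : Prop :=
  ∀ p : Sp F, p ∈ Gr f ↔ O p + τ ∈ Gr g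

lemma Rel.symm {O : Sp F ≃ₗᵢ[ℝ] Sp F} {τ : Sp F} {f g : F → ℝ} (h : Rel O τ f g) :
    Rel O.symm (-(O.symm τ)) g f := by
  intro p
  rw [h, map_add, map_neg]
  simp

lemma La_iff {f : F → ℝ} {p : Sp F} :
    p ∈ La f ↔ ∀ q ∈ Gr f, ∀ s : ℝ, q + s • p ∈ Gr f := by
  constructor
  · intro h q hq s
    simp only [Gr, mem_setOf_eq, snd_add, fst_add, snd_smul, fst_smul] at hq ⊢
    rw [h, hq]
  · intro h x s
    have := h (pt x (f x)) rfl s
    simp only [Gr, mem_setOf_eq, snd_add, fst_add, snd_smul, fst_smul, pt_fst, pt_snd] at this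
    exact this.symm

lemma Rel.La_map {O : Sp F ≃ₗᵢ[ℝ] Sp F} {τ : Sp F} {f g : F → ℝ} (h : Rel O τ f g) {p : Sp F}
    (hp : p ∈ La f) : O p ∈ La g := by
  rw [La_iff] at hp ⊢
  intro q hq s
  have h1 : O.symm (q - τ) ∈ Gr f := by
    rw [h]; simpa using hq
  have h2 := hp _ h1 s
  rw [h] at h2
  simp only [map_add, map_smul, LinearIsometryEquiv.apply_symm_apply] at h2
  have e : q - τ + s • O p + τ = q + s • O p := by abel
  rwa [e] at h2

/-- The directions parallel to no secant. -/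
def No (f : F → ℝ) : Set (Sp F) := {p | ∀ q ∈ Gr f, ∀ s : ℝ, s ≠ 0 → q + s • p ∉ Gr f}

lemma Rel.No_map {O : Sp F ≃ₗᵢ[ℝ] Sp F} {τ : Sp F} {f g : F → ℝ} (h : Rel O τ f g) {p : Sp F}
    (hp : p ∈ No f) : O p ∈ No g := by
  intro q hq s hs hqs
  have h1 : O.symm (q - τ) ∈ Gr f := by
    rw [h]; simpa using hq
  refine hp _ h1 s hs ?_
  rw [h]
  simp only [map_add, map_smul, LinearIsometryEquiv.apply_symm_apply]
  have e : q - τ + s • O p + τ = q + s • O p := by abel
  rwa [e]

lemma Co_add_ev {f : F → ℝ} {p : Sp F} (hp : p ∈ Co f) {ε : ℝ} (hε : 0 < ε) :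
    p + ε • ev ∈ No f := by
  intro q hq s hs hqs
  simp only [Gr, mem_setOf_eq, snd_add, fst_add, snd_smul, fst_smul, ev_fst, ev_snd, smul_zero,
    add_zero, mul_one] at hq hqs
  rcases lt_or_gt_of_ne hs with h | h
  · have h1 := hp (q.fst + s • p.fst) (-s) (by linarith)
    simp only [neg_smul, add_neg_cancel_right] at h1
    nlinarith
  · have h1 := hp q.fst s h
    nlinarith

lemma No_sub {f : F → ℝ} (hf : Continuous f) {p : Sp F} (hp : p ∈ No f) :
    p ∈ Co f ∨ -p ∈ Co f := by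
  set ψ : F × ℝ → ℝ := fun z => f (z.1 + z.2 • p.fst) - f z.1 - z.2 * p.snd with hψ
  have hc : Continuous ψ := by
    refine ((hf.comp ?_).sub (hf.comp continuous_fst)).sub (continuous_snd.mul continuous_const)
    exact continuous_fst.add (continuous_snd.smul continuous_const)
  have hne : ∀ z ∈ (univ ×ˢ Ioi (0:ℝ) : Set (F × ℝ)), ψ z ≠ 0 := by
    rintro ⟨x, s⟩ ⟨-, hs⟩ h0
    refine hp (pt x (f x)) rfl s (ne_of_gt hs) ?_
    simp only [Gr, mem_setOf_eq, snd_add, fst_add, snd_smul, fst_smul, pt_fst, pt_snd]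
    simp only [hψ] at h0
    linarith
  have hconn : IsPreconnected (univ ×ˢ Ioi (0:ℝ) : Set (F × ℝ)) :=
    isPreconnected_univ.prod isPreconnected_Ioi
  by_cases h : ∃ z ∈ (univ ×ˢ Ioi (0:ℝ) : Set (F × ℝ)), 0 < ψ z
  · right
    obtain ⟨z, hz, hz0⟩ := h
    have hall : ∀ w ∈ (univ ×ˢ Ioi (0:ℝ) : Set (F × ℝ)), 0 < ψ w := by
      intro w hw
      by_contra hcon
      have hw0 : ψ w ≤ 0 := not_lt.1 hcon
      obtain ⟨u, hu, hu0⟩ := hconn.intermediate_value hw hz hc.continuousOn ⟨hw0, hz0.le⟩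
      exact hne u hu hu0
    intro x s hs
    have := hall (x - s • p.fst, s) ⟨mem_univ _, hs⟩
    simp only [hψ, sub_add_cancel] at this
    simp only [fst_neg, snd_neg, smul_neg]
    rw [← sub_eq_add_neg]
    linarith
  · left
    push Not at h
    intro x s hs
    have := h (x, s) ⟨mem_univ _, hs⟩
    simp only [hψ] at this
    linarith

/-- The image of a direction above all secants is above or below all secants. -/
lemma Rel.Co_map_or {O : Sp F ≃ₗᵢ[ℝ] Sp F} {τ : Sp F} {f g : F → ℝ} (h : Rel O τ f g)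
    (hg : Continuous g) {p : Sp F} (hp : p ∈ Co f) : O p ∈ Co g ∨ -(O p) ∈ Co g := by
  have hcl : IsClosed {q : Sp F | q ∈ Co g ∨ -q ∈ Co g} :=
    (Co_closed hg).union ((Co_closed hg).preimage continuous_neg)
  have ht : Tendsto (fun n : ℕ => O (p + (1 / ((n : ℝ) + 1)) • ev)) atTop (𝓝 (O (p + (0:ℝ) • ev))) := by
    refine (O.continuous.tendsto _).comp ?_
    exact tendsto_const_nhds.add (tendsto_one_div_add_atTop_nhds_zero_nat.smul_const _)
  rw [zero_smul, add_zero] at ht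
  refine hcl.mem_of_tendsto ht (Eventually.of_forall fun n => ?_)
  exact No_sub hg (h.No_map (Co_add_ev hp (by positivity)))

/-- Coherence of the signs. -/
lemma coherent {U : Sp F ≃ₗᵢ[ℝ] Sp F} {f g : F → ℝ} (hg : Continuous g)
    (h1 : ∀ p ∈ Co f, U p ∈ Co g ∨ -(U p) ∈ Co g) (h2 : ∀ p, U p ∈ La g → p ∈ La f)
    (h3 : ∀ p, p ∈ La f → U p ∈ La g)
    (he : U ev ∈ Co g) : ∀ p ∈ Co f, U p ∈ Co g := by
  intro p hp
  by_contra hcon
  have hn : -(U p) ∈ Co g := (h1 p hp).resolve_left hcon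
  set q : ℝ → Sp F := fun s => (1 - s) • ev + s • p with hq
  have hqc : Continuous q := by
    simp only [hq]; fun_prop
  have hq0 : q 0 = ev := by simp [hq]
  have hq1 : q 1 = p := by simp [hq]
  have hqC : ∀ s ∈ Icc (0:ℝ) 1, q s ∈ Co f := fun s hs =>
    Co_add (Co_smul (ev_mem_Co f) (by linarith [hs.2])) (Co_smul hp hs.1)
  have hA : IsClosed {s : ℝ | U (q s) ∈ Co g} :=
    (Co_closed hg).preimage (U.continuous.comp hqc)
  have hB : IsClosed {s : ℝ | -(U (q s)) ∈ Co g} :=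
    (Co_closed hg).preimage (continuous_neg.comp (U.continuous.comp hqc))
  have hpre := (isPreconnected_closed_iff.1 (isPreconnected_Icc (a := (0:ℝ)) (b := 1))) _ _ hA hB
    (fun s hs => h1 _ (hqC s hs))
    ⟨0, ⟨le_rfl, zero_le_one⟩, by simpa [hq0] using he⟩
    ⟨1, ⟨zero_le_one, le_rfl⟩, by simpa [hq1] using hn⟩
  obtain ⟨s, hs, hs1, hs2⟩ := hpre
  have hL : q s ∈ La f := h2 _ (mem_La_of_Co hs1 hs2)
  rcases hs.2.eq_or_lt with h | h
  · rw [h, hq1] at hL
    exact hcon (La_sub_Co (h3 _ hL))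
  · have hneg : -((1 - s) • ev : Sp F) ∈ Co f := by
      have e : -((1 - s) • ev : Sp F) = -(q s) + s • p := by simp only [hq]; abel
      rw [e]
      exact Co_add (La_sub_Co ((La f).neg_mem hL)) (Co_smul hp hs.1)
    have h4 := Co_smul hneg (r := (1 - s)⁻¹) (by
      have : 0 < 1 - s := by linarith
      positivity)
    have h5 : (1 - s)⁻¹ • -((1 - s) • ev : Sp F) = -ev := by
      rw [smul_neg, smul_smul, inv_mul_cancel₀ (by linarith), one_smul]
    rw [h5] at h4
    exact neg_ev_not_mem_Co f h4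

/-- After a change of sign the linear part maps the cone onto the cone. -/
lemma Rel.exists_sign {O : Sp F ≃ₗᵢ[ℝ] Sp F} {τ : Sp F} {f g : F → ℝ} (h : Rel O τ f g)
    (hf : Continuous f) (hg : Continuous g) :
    ∃ U : Sp F ≃ₗᵢ[ℝ] Sp F, ((∀ p, U p = O p) ∨ (∀ p, U p = -(O p))) ∧
      (∀ p, p ∈ Co f ↔ U p ∈ Co g) ∧ (∀ p, p ∈ La f ↔ U p ∈ La g) := by
  -- a choice of the sign for which `ev` is mapped into the cone
  have hLa : ∀ p, p ∈ La f ↔ O p ∈ La g := fun p => ⟨fun hp => h.La_map hp, fun hp => by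
    simpa using h.symm.La_map hp⟩
  obtain ⟨U, hU, hUe⟩ : ∃ U : Sp F ≃ₗᵢ[ℝ] Sp F,
      ((∀ p, U p = O p) ∨ (∀ p, U p = -(O p))) ∧ U ev ∈ Co g := by
    rcases h.Co_map_or hg (ev_mem_Co f) with h1 | h1
    · exact ⟨O, Or.inl fun p => rfl, h1⟩
    · exact ⟨O.trans (LinearIsometryEquiv.neg ℝ), Or.inr fun p => rfl, h1⟩
  have hULa : ∀ p, p ∈ La f ↔ U p ∈ La g := by
    intro p
    rcases hU with hU | hU
    · rw [hU]; exact hLa p
    · rw [hU, Submodule.neg_mem_iff]; exact hLa p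
  have hUor : ∀ p ∈ Co f, U p ∈ Co g ∨ -(U p) ∈ Co g := by
    intro p hp
    rcases hU with hU | hU
    · rw [hU]; exact h.Co_map_or hg hp
    · rw [hU, neg_neg]; exact (h.Co_map_or hg hp).symm
  have hfwd : ∀ p ∈ Co f, U p ∈ Co g :=
    coherent hg hUor (fun p hp => (hULa p).2 hp) (fun p hp => (hULa p).1 hp) hUe
  -- the inverse
  have hOsymm : ∀ p ∈ Co g, U.symm p ∈ Co f ∨ -(U.symm p) ∈ Co f := by
    intro p hp
    have h1 := h.symm.Co_map_or hf hp
    rcases hU with hU | hU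
    · have e : U.symm p = O.symm p := by
        rw [LinearIsometryEquiv.symm_apply_eq, hU]; simp
      rw [e]; exact h1
    · have e : U.symm p = -(O.symm p) := by
        rw [LinearIsometryEquiv.symm_apply_eq, hU]; simp
      rw [e, neg_neg]; exact h1.symm
  have hse : U.symm ev ∈ Co f := by
    rcases hOsymm ev (ev_mem_Co g) with h1 | h1
    · exact h1
    · exfalso
      have h2 := hfwd _ h1
      rw [map_neg] at h2
      simp only [LinearIsometryEquiv.apply_symm_apply] at h2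
      exact neg_ev_not_mem_Co g h2
  have hbwd : ∀ p ∈ Co g, U.symm p ∈ Co f :=
    coherent hf hOsymm (fun p hp => by simpa using (hULa _).1 hp)
      (fun p hp => (hULa _).2 (by simpa using hp)) hse
  exact ⟨U, hU, fun p => ⟨hfwd p, fun hp => by simpa using hbwd _ hp⟩, hULa⟩

end Pool.Agent.Q76.HR
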