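import Mathlib

set_option autoImplicit false

open Set Filter Topology

namespace Pool.Agent.Q76.HR

section

variable {Y : Type*} [MetricSpace Y] {g : Y → ℝ} {S : Y → Y} {ρ l : ℝ}

lemma iter_dist (hS : ∀ a b, dist (S a) (S b) = ρ * dist a b) (n : ℕ) (a b : Y) :
    dist (S^[n] a) (S^[n] b) = ρ ^ n * dist a b := by
  induction n generalizing a b with
  | zero => simp
  | succ n ih => rw [Function.iterate_succ_apply, Function.iterate_succ_apply, ih, hS, pow_succ]; ring

lemma iter_val (hgS : ∀ a b, |g (S a) - g (S b)| = l * |g a - g b|) (n : ℕ) (a b : Y) :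
    |g (S^[n] a) - g (S^[n] b)| = l ^ n * |g a - g b| := by
  induction n generalizing a b with
  | zero => simp
  | succ n ih =>
    rw [Function.iterate_succ_apply, Function.iterate_succ_apply, ih, hgS, pow_succ]; ring

lemma exists_fixed [CompleteSpace Y] [Nonempty Y] (h0 : 0 ≤ ρ) (h1 : ρ < 1)
    (hS : ∀ a b, dist (S a) (S b) = ρ * dist a b) : ∃ z, S z = z := by
  have hc : ContractingWith ⟨ρ, h0⟩ S :=
    ⟨by exact_mod_cast h1, LipschitzWith.of_dist_le_mul fun a b => (hS a b).le⟩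
  exact ⟨hc.fixedPoint S, hc.fixedPoint_isFixedPt⟩

/-- A continuous function whose oscillations are not diminished by a contraction is constant. -/
theorem const_of_one [CompleteSpace Y] [Nonempty Y] (hg : Continuous g) (h0 : 0 ≤ ρ) (h1 : ρ < 1)
    (hS : ∀ a b, dist (S a) (S b) = ρ * dist a b) (hl : 1 ≤ l)
    (hgS : ∀ a b, |g (S a) - g (S b)| = l * |g a - g b|) : ∀ a b, g a = g b := by
  obtain ⟨z, hz⟩ := exists_fixed h0 h1 hS
  have key : ∀ a, g a = g z := by
    intro a
    have hzn : ∀ n, S^[n] z = z := fun n => Function.iterate_fixed hz n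
    have hlim : Tendsto (fun n => S^[n] a) atTop (𝓝 z) := by
      rw [tendsto_iff_dist_tendsto_zero]
      have : ∀ n, dist (S^[n] a) z = ρ ^ n * dist a z := fun n => by
        have := iter_dist hS n a z
        rwa [hzn] at this
      simp only [this]
      have h2 := (tendsto_pow_atTop_nhds_zero_of_lt_one h0 h1).mul_const (dist a z)
      simpa using h2
    have hlim2 : Tendsto (fun n => |g (S^[n] a) - g z|) atTop (𝓝 |g z - g z|) :=
      (((hg.tendsto z).comp hlim).sub_const _).abs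
    rw [sub_self, abs_zero] at hlim2
    have hge : ∀ n, |g a - g z| ≤ |g (S^[n] a) - g z| := by
      intro n
      have h3 := iter_val hgS n a z
      rw [hzn] at h3
      rw [h3]
      exact le_mul_of_one_le_left (abs_nonneg _) (one_le_pow₀ hl)
    have h4 : |g a - g z| ≤ 0 := ge_of_tendsto' hlim2 hge
    have h5 : |g a - g z| = 0 := le_antisymm h4 (abs_nonneg _)
    linarith [abs_eq_zero.1 h5]
  intro a b
  rw [key a, key b]

/-- Two self-similarities with different exponents. -/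
theorem const_of_two [ProperSpace Y] [Nonempty Y] (hg : Continuous g) {S₁ S₂ : Y → Y}
    {ρ₁ ρ₂ l₁ l₂ : ℝ} (h2 : 0 < ρ₂) (h21 : ρ₂ ≤ ρ₁) (h1 : ρ₁ < 1)
    (hS₁ : ∀ a b, dist (S₁ a) (S₁ b) = ρ₁ * dist a b)
    (hS₂ : ∀ a b, dist (S₂ a) (S₂ b) = ρ₂ * dist a b)
    (hsurj : Function.Surjective S₁)
    (hl0 : 0 < l₁) (hl12 : l₁ < l₂) (hl1 : l₁ < 1)
    (hg₁ : ∀ a b, |g (S₁ a) - g (S₁ b)| = l₁ * |g a - g b|)
    (hg₂ : ∀ a b, |g (S₂ a) - g (S₂ b)| = l₂ * |g a - g b|) : ∀ a b, g a = g b := by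
  have hρ1 : 0 < ρ₁ := h2.trans_le h21
  obtain ⟨z₁, hz₁⟩ := exists_fixed hρ1.le h1 hS₁
  obtain ⟨z₂, hz₂⟩ := exists_fixed h2.le (h21.trans_lt h1) hS₂
  have key : ∀ a, g a = g z₁ := by
    intro a
    by_contra hne
    set δ : ℝ := |g a - g z₁| with hδ
    have hδ0 : 0 < δ := abs_pos.2 (sub_ne_zero.2 hne)
    set D : ℝ := dist a z₁ + dist z₁ z₂ with hD
    obtain ⟨M, hM⟩ := (isCompact_closedBall z₂ D).bddAbove_image
      (f := fun x => |g x - g z₂|) (hg.sub continuous_const).abs.continuousOn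
    have hz₁n : ∀ n, S₁^[n] z₁ = z₁ := fun n => Function.iterate_fixed hz₁ n
    have hz₂n : ∀ n, S₂^[n] z₂ = z₂ := fun n => Function.iterate_fixed hz₂ n
    have hmain : ∀ m : ℕ, l₂ ^ m * (δ / l₁ ^ m - |g z₁ - g z₂|) ≤ M := by
      intro m
      obtain ⟨x, hx⟩ := hsurj.iterate m a
      have e1 : ρ₁ ^ m * dist x z₁ = dist a z₁ := by
        have := iter_dist hS₁ m x z₁
        rw [hx, hz₁n] at this
        exact this.symm
      have e2 : l₁ ^ m * |g x - g z₁| = δ := by
        have := iter_val hg₁ m x z₁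
        rw [hx, hz₁n] at this
        exact this.symm
      have e3 : dist (S₂^[m] x) z₂ = ρ₂ ^ m * dist x z₂ := by
        have := iter_dist hS₂ m x z₂
        rwa [hz₂n] at this
      have e4 : |g (S₂^[m] x) - g z₂| = l₂ ^ m * |g x - g z₂| := by
        have := iter_val hg₂ m x z₂
        rwa [hz₂n] at this
      have hmem : S₂^[m] x ∈ Metric.closedBall z₂ D := by
        rw [Metric.mem_closedBall, e3]
        have hp : ρ₂ ^ m ≤ ρ₁ ^ m := pow_le_pow_left₀ h2.le h21 m
        have hp1 : ρ₂ ^ m ≤ 1 := pow_le_one₀ h2.le (h21.trans h1.le)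
        calc ρ₂ ^ m * dist x z₂ ≤ ρ₂ ^ m * (dist x z₁ + dist z₁ z₂) :=
              mul_le_mul_of_nonneg_left (dist_triangle _ _ _) (pow_nonneg h2.le _)
          _ = ρ₂ ^ m * dist x z₁ + ρ₂ ^ m * dist z₁ z₂ := by ring
          _ ≤ ρ₁ ^ m * dist x z₁ + 1 * dist z₁ z₂ :=
              add_le_add (mul_le_mul_of_nonneg_right hp dist_nonneg)
                (mul_le_mul_of_nonneg_right hp1 dist_nonneg)
          _ = D := by rw [e1, one_mul]
      have h5 : |g (S₂^[m] x) - g z₂| ≤ M := hM (mem_image_of_mem _ hmem)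
      rw [e4] at h5
      refine le_trans (mul_le_mul_of_nonneg_left ?_ (pow_nonneg (hl0.trans hl12).le _)) h5
      have h6 : δ / l₁ ^ m = |g x - g z₁| := by
        rw [div_eq_iff (pow_pos hl0 m).ne', ← e2]; ring
      rw [h6]
      have h7 : |g x - g z₁| ≤ |g x - g z₂| + |g z₁ - g z₂| := by
        have := abs_sub_le (g x) (g z₂) (g z₁)
        rwa [abs_sub_comm (g z₂) (g z₁)] at this
      linarith
    -- the contradiction
    set c : ℝ := |g z₁ - g z₂| with hc
    have hlim1 : Tendsto (fun m : ℕ => δ - c * l₁ ^ m) atTop (𝓝 (δ - c * 0)) :=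
      tendsto_const_nhds.sub ((tendsto_pow_atTop_nhds_zero_of_lt_one hl0.le hl1).const_mul c)
    rw [mul_zero, sub_zero] at hlim1
    have hlim2 : Tendsto (fun m : ℕ => (l₂ / l₁) ^ m) atTop atTop :=
      tendsto_pow_atTop_atTop_of_one_lt ((one_lt_div hl0).2 hl12)
    have hlim3 := hlim2.atTop_mul_pos hδ0 hlim1
    have hev := hlim3.eventually_gt_atTop M
    obtain ⟨m, hm⟩ := hev.exists
    have h8 := hmain m
    have e : l₂ ^ m * (δ / l₁ ^ m - c) = (l₂ / l₁) ^ m * (δ - c * l₁ ^ m) := by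
      rw [div_pow]
      have := (pow_pos hl0 m).ne'
      field_simp
    rw [e] at h8
    linarith
  intro a b
  rw [key a, key b]

end

end Pool.Agent.Q76.HR
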