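import Pool.Agent.Q76.HR.Cone
import Pool.Agent.Q76.HR.Growth

set_option autoImplicit false
set_option linter.unusedSectionVars false

open Set Filter Topology

namespace Pool.Agent.Q76.HR

variable {F : Type*} [NormedAddCommGroup F] [InnerProductSpace ℝ F]

/-- The rescaled function. -/
def sc (f : F → ℝ) (c : ℝ) : F → ℝ := fun x => f (c • x)

lemma sc_cont {f : F → ℝ} (hf : Continuous f) (c : ℝ) : Continuous (sc f c) :=
  hf.comp (continuous_const_smul c)

lemma mem_Co_sc {f : F → ℝ} {c : ℝ} (hc : 0 < c) {p : Sp F} :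
    p ∈ Co (sc f c) ↔ pt (c • p.fst) p.snd ∈ Co f := by
  constructor
  · intro h y s hs
    have := h (c⁻¹ • y) s hs
    simp only [sc, smul_add, smul_smul, mul_inv_cancel₀ hc.ne', one_smul] at this
    simp only [pt_fst, pt_snd, smul_smul]
    rwa [mul_comm c s] at this
  · intro h x s hs
    have := h (c • x) s hs
    simp only [pt_fst, pt_snd, smul_smul] at this
    simp only [sc, smul_add, smul_smul]
    rwa [mul_comm s c] at this

lemma mem_La_sc {f : F → ℝ} {c : ℝ} (hc : 0 < c) {p : Sp F} :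
    p ∈ La (sc f c) ↔ pt (c • p.fst) p.snd ∈ La f := by
  constructor
  · intro h y s
    have := h (c⁻¹ • y) s
    simp only [sc, smul_add, smul_smul, mul_inv_cancel₀ hc.ne', one_smul] at this
    simp only [pt_fst, pt_snd, smul_smul]
    rwa [mul_comm c s] at this
  · intro h x s
    have := h (c • x) s
    simp only [pt_fst, pt_snd, smul_smul] at this
    simp only [sc, smul_add, smul_smul]
    rwa [mul_comm s c] at this

/-- The horizontal parts of the translations preserving the graph. -/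
def Vs (f : F → ℝ) : Submodule ℝ F where
  carrier := {v | ∃ t, pt v t ∈ La f}
  add_mem' := by
    rintro v w ⟨t, ht⟩ ⟨u, hu⟩
    exact ⟨t + u, (La f).add_mem ht hu⟩
  zero_mem' := ⟨0, (La f).zero_mem⟩
  smul_mem' := by
    rintro r v ⟨t, ht⟩
    exact ⟨r * t, (La f).smul_mem r ht⟩

lemma mem_Vs {f : F → ℝ} {v : F} : v ∈ Vs f ↔ ∃ t, pt v t ∈ La f := Iff.rfl

lemma fst_mem_Vs {f : F → ℝ} {c : ℝ} (hc : 0 < c) {p : Sp F} (hp : p ∈ La (sc f c)) :
    p.fst ∈ Vs f := by
  rw [mem_La_sc hc] at hp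
  have h1 : c • p.fst ∈ Vs f := ⟨_, hp⟩
  have h2 := (Vs f).smul_mem c⁻¹ h1
  rwa [smul_smul, inv_mul_cancel₀ hc.ne', one_smul] at h2

lemma exists_La_sc {f : F → ℝ} {c : ℝ} (hc : 0 < c) {v : F} (hv : v ∈ Vs f) :
    ∃ t, pt v t ∈ La (sc f c) := by
  obtain ⟨t, ht⟩ := (Vs f).smul_mem c hv
  exact ⟨t, (mem_La_sc hc).2 ht⟩

/-- The domain of the cone. -/
def Dm (f : F → ℝ) : Set F := {v | ∃ t, pt v t ∈ Co f}

section limit

variable {f : F → ℝ} {c : ℕ → ℝ} {U : ℕ → (Sp F ≃ₗᵢ[ℝ] Sp F)} {U0 : Sp F ≃ₗᵢ[ℝ] Sp F}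

lemma lim_symm (hU0 : ∀ p, Tendsto (fun i => U i p) atTop (𝓝 (U0 p))) (p : Sp F) :
    Tendsto (fun i => (U i).symm p) atTop (𝓝 (U0.symm p)) := by
  rw [tendsto_iff_norm_sub_tendsto_zero]
  have h1 := hU0 (U0.symm p)
  rw [LinearIsometryEquiv.apply_symm_apply, tendsto_iff_norm_sub_tendsto_zero] at h1
  refine h1.congr fun i => ?_
  rw [← (U i).norm_map ((U i).symm p - U0.symm p), map_sub, LinearIsometryEquiv.apply_symm_apply,
    norm_sub_rev]

lemma snd_nonneg (hf : Continuous f) (hc : ∀ i, 0 < c i) (hc0 : Tendsto c atTop (𝓝 0))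
    (hUC : ∀ i p, p ∈ Co f ↔ U i p ∈ Co (sc f (c i)))
    (hU0 : ∀ p, Tendsto (fun i => U i p) atTop (𝓝 (U0 p))) {x : Sp F} (hx : x ∈ Co f) :
    0 ≤ (U0 x).snd := by
  have h1 : ∀ i, f (c i • (U i x).fst) - f 0 ≤ (U i x).snd := by
    intro i
    have := (hUC i x).1 hx 0 1 one_pos
    simp only [sc, zero_add, one_smul, smul_zero, one_mul] at this
    linarith
  have h2 : Tendsto (fun i => f (c i • (U i x).fst) - f 0) atTop (𝓝 (f ((0:ℝ) • (U0 x).fst) - f 0)) := by
    refine ((hf.tendsto _).comp ?_).sub_const _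
    exact hc0.smul ((cont_fst.tendsto _).comp (hU0 x))
  rw [zero_smul, sub_self] at h2
  exact le_of_tendsto_of_tendsto' h2 ((cont_snd.tendsto _).comp (hU0 x)) h1

lemma fst_mem_closure (hc : ∀ i, 0 < c i)
    (hUC : ∀ i p, p ∈ Co f ↔ U i p ∈ Co (sc f (c i)))
    (hU0 : ∀ p, Tendsto (fun i => U i p) atTop (𝓝 (U0 p))) {x : Sp F} (hx : x ∈ Co f) :
    (U0 x).fst ∈ closure (Dm f) := by
  refine mem_closure_of_tendsto ((cont_fst.tendsto _).comp (hU0 x)) (Eventually.of_forall fun i => ?_)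
  have h1 := (mem_Co_sc (hc i)).1 ((hUC i x).1 hx)
  have h2 := Co_smul h1 (inv_pos.2 (hc i)).le
  refine ⟨(c i)⁻¹ * (U i x).snd, ?_⟩
  have e : pt (U i x).fst ((c i)⁻¹ * (U i x).snd) =
      (c i)⁻¹ • pt (c i • (U i x).fst) (U i x).snd := by
    apply ext'
    · simp [smul_smul, inv_mul_cancel₀ (hc i).ne']
    · simp
  exact e ▸ h2

lemma symm_mem (hf : Continuous f) (hc : ∀ i, 0 < c i) (hc0 : Tendsto c atTop (𝓝 0))
    (hUC : ∀ i p, p ∈ Co f ↔ U i p ∈ Co (sc f (c i)))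
    (hU0 : ∀ p, Tendsto (fun i => U i p) atTop (𝓝 (U0 p))) {v : F} (hv : v ∈ closure (Dm f)) :
    U0.symm (pt v 0) ∈ Co f := by
  have hcl : IsClosed {v : F | U0.symm (pt v 0) ∈ Co f} := by
    refine (Co_closed hf).preimage (U0.symm.continuous.comp ?_)
    exact cont_pt.comp (continuous_id.prodMk continuous_const)
  refine closure_minimal ?_ hcl hv
  rintro w ⟨t, ht⟩
  have h1 : ∀ i, (U i).symm (pt w (max (c i * t) 0)) ∈ Co f := by
    intro i
    rw [hUC i, LinearIsometryEquiv.apply_symm_apply, mem_Co_sc (hc i)]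
    have h2 := Co_add (Co_smul ht (hc i).le)
      (Co_smul (ev_mem_Co f) (r := max (c i * t) 0 - c i * t) (by
        have := le_max_left (c i * t) 0
        linarith))
    have e : pt (c i • (pt w (max (c i * t) 0)).fst) (pt w (max (c i * t) 0)).snd =
        c i • pt w t + (max (c i * t) 0 - c i * t) • ev := by
      apply ext'
      · simp
      · simp
    exact e ▸ h2
  have h3 : Tendsto (fun i => (U i).symm (pt w (max (c i * t) 0))) atTop
      (𝓝 (U0.symm (pt w 0) + (max ((0:ℝ) * t) 0) • U0.symm ev)) := by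
    have e : ∀ i, (U i).symm (pt w (max (c i * t) 0)) =
        (U i).symm (pt w 0) + (max (c i * t) 0) • (U i).symm ev := by
      intro i
      rw [← map_smul, ← map_add]
      congr 1
      apply ext'
      · simp
      · simp
    simp only [e]
    exact (lim_symm hU0 _).add (((hc0.mul_const t).max tendsto_const_nhds).smul (lim_symm hU0 _))
  simp only [zero_mul, max_self, zero_smul, add_zero] at h3
  exact (Co_closed hf).mem_of_tendsto h3 (Eventually.of_forall h1)

lemma orth (hf : Continuous f) (hc : ∀ i, 0 < c i) (hc0 : Tendsto c atTop (𝓝 0))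
    (hUC : ∀ i p, p ∈ Co f ↔ U i p ∈ Co (sc f (c i)))
    (hU0 : ∀ p, Tendsto (fun i => U i p) atTop (𝓝 (U0 p))) {x : Sp F} (hx : x ∈ La f) :
    inner ℝ x (U0.symm ev) = 0 := by
  have e : ∀ y : Sp F, inner ℝ y (U0.symm ev) = (U0 y).snd := fun y => by
    rw [← U0.inner_map_map, LinearIsometryEquiv.apply_symm_apply, inner_ev]
  have h1 := snd_nonneg hf hc hc0 hUC hU0 (La_sub_Co hx)
  have h2 := snd_nonneg hf hc hc0 hUC hU0 (La_sub_Co ((La f).neg_mem hx))
  rw [map_neg, snd_neg] at h2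
  rw [e]
  linarith

lemma lineal [FiniteDimensional ℝ F] (hf : Continuous f) (hc : ∀ i, 0 < c i)
    (hc0 : Tendsto c atTop (𝓝 0))
    (hUC : ∀ i p, p ∈ Co f ↔ U i p ∈ Co (sc f (c i)))
    (hUL : ∀ i p, p ∈ La f ↔ U i p ∈ La (sc f (c i)))
    (hU0 : ∀ p, Tendsto (fun i => U i p) atTop (𝓝 (U0 p))) {v : F} (hv : v ∈ Dm f)
    (hv' : -v ∈ Dm f) : v ∈ Vs f := by
  have h1 := symm_mem hf hc hc0 hUC hU0 (subset_closure hv)
  have h2 := symm_mem hf hc hc0 hUC hU0 (subset_closure hv')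
  have e : pt (-v) 0 = -(pt v 0) := by apply ext' <;> simp
  rw [e, map_neg] at h2
  have h3 := mem_La_of_Co h1 h2
  have hcl : IsClosed (Vs f : Set F) := (Vs f).closed_of_finiteDimensional
  have h4 : Tendsto (fun i => (U i (U0.symm (pt v 0))).fst) atTop (𝓝 (U0 (U0.symm (pt v 0))).fst) :=
    (cont_fst.tendsto _).comp (hU0 _)
  rw [LinearIsometryEquiv.apply_symm_apply, pt_fst] at h4
  exact hcl.mem_of_tendsto h4 (Eventually.of_forall fun i => fst_mem_Vs (hc i) ((hUL i _).1 h3))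

lemma fst_mem [FiniteDimensional ℝ F] (hf : Continuous f) (hc : ∀ i, 0 < c i)
    (hc0 : Tendsto c atTop (𝓝 0))
    (hUC : ∀ i p, p ∈ Co f ↔ U i p ∈ Co (sc f (c i)))
    (hUL : ∀ i p, p ∈ La f ↔ U i p ∈ La (sc f (c i)))
    (hU0 : ∀ p, Tendsto (fun i => U i p) atTop (𝓝 (U0 p))) :
    ∀ᶠ i in atTop, (U i (U0.symm ev)).fst ∈ Vs f := by
  set r : Sp F := U0.symm ev with hr
  have hrC : r ∈ Co f := (Co_closed hf).mem_of_tendsto (lim_symm hU0 ev)
    (Eventually.of_forall fun i => by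
      rw [hUC i, LinearIsometryEquiv.apply_symm_apply]; exact ev_mem_Co _)
  have h1 : Tendsto (fun i => inner ℝ ((U i).symm ev) r) atTop (𝓝 (inner ℝ r r)) :=
    (lim_symm hU0 ev).inner tendsto_const_nhds
  have h2 : inner ℝ r r = 1 := by
    rw [hr, U0.symm.inner_map_map, inner_ev, ev_snd]
  rw [h2] at h1
  filter_upwards [h1.eventually_const_lt (show (0:ℝ) < 1 by norm_num)] with i hi
  set w : Sp F := (U i).symm ev with hw
  set t : ℝ := inner ℝ w r with ht
  have hwC : w ∈ Co f := by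
    rw [hUC i, hw, LinearIsometryEquiv.apply_symm_apply]; exact ev_mem_Co _
  have ht' : t = (U0 w).snd := by
    rw [ht, ← U0.inner_map_map, hr, LinearIsometryEquiv.apply_symm_apply, inner_ev]
  -- the two summands
  have ha : t • r ∈ Co f := Co_smul hrC hi.le
  have hb : w - t • r ∈ Co f := by
    have h3 := symm_mem hf hc hc0 hUC hU0 (fst_mem_closure hc hUC hU0 hwC)
    have e : U0.symm (pt (U0 w).fst 0) = w - t • r := by
      rw [LinearIsometryEquiv.symm_apply_eq, map_sub, map_smul, hr,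
        LinearIsometryEquiv.apply_symm_apply]
      apply ext'
      · simp
      · simp [ht']
    rwa [e] at h3
  have ha' := (hUC i _).1 ha
  have hb' := (hUC i _).1 hb
  rw [mem_Co_sc (hc i)] at ha' hb'
  have hsum : U i (w - t • r) = ev - U i (t • r) := by
    rw [map_sub, hw, LinearIsometryEquiv.apply_symm_apply]
  rw [hsum] at hb'
  simp only [fst_sub, ev_fst, zero_sub, smul_neg] at hb'
  have h5 : c i • (U i (t • r)).fst ∈ Vs f := lineal hf hc hc0 hUC hUL hU0 ⟨_, ha'⟩ ⟨_, hb'⟩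
  have h6 := (Vs f).smul_mem (t⁻¹ * (c i)⁻¹) h5
  have e : (t⁻¹ * (c i)⁻¹) • c i • (U i (t • r)).fst = (U i r).fst := by
    rw [map_smul, fst_smul, smul_smul, smul_smul]
    have : t⁻¹ * (c i)⁻¹ * c i * t = 1 := by
      have h7 := (hc i).ne'
      have h8 := hi.ne'
      field_simp
    rw [this, one_smul]
  rwa [e] at h6

/-- The tail of the sequence. -/
lemma tail [FiniteDimensional ℝ F] (hf : Continuous f) (hc : ∀ i, 0 < c i)
    (hc0 : Tendsto c atTop (𝓝 0))
    (hUC : ∀ i p, p ∈ Co f ↔ U i p ∈ Co (sc f (c i)))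
    (hUL : ∀ i p, p ∈ La f ↔ U i p ∈ La (sc f (c i)))
    (hU0 : ∀ p, Tendsto (fun i => U i p) atTop (𝓝 (U0 p))) :
    ∀ᶠ i in atTop, ∃ l ∈ La (sc f (c i)), ∃ α : ℝ, U i (U0.symm ev) = l + α • ev ∧
      α * (U i (U0.symm ev)).snd = 1 := by
  filter_upwards [fst_mem hf hc hc0 hUC hUL hU0] with i hi
  obtain ⟨t, ht⟩ := exists_La_sc (hc i) hi
  refine ⟨_, ht, (U i (U0.symm ev)).snd - t, ?_, ?_⟩
  · apply ext' <;> simp
  · have h1 : inner ℝ ((U i).symm (pt (U i (U0.symm ev)).fst t)) (U0.symm ev) = 0 :=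
      orth hf hc hc0 hUC hU0 (by rw [hUL i, LinearIsometryEquiv.apply_symm_apply]; exact ht)
    rw [← (U i).inner_map_map, LinearIsometryEquiv.apply_symm_apply] at h1
    have h2 : inner ℝ (U i (U0.symm ev)) (U i (U0.symm ev)) = 1 := by
      rw [(U i).inner_map_map, U0.symm.inner_map_map, inner_ev, ev_snd]
    have h3 : inner ℝ (pt (U i (U0.symm ev)).fst t + ((U i (U0.symm ev)).snd - t) • ev)
        (U i (U0.symm ev)) = 1 := by
      have e : pt (U i (U0.symm ev)).fst t + ((U i (U0.symm ev)).snd - t) • ev =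
          U i (U0.symm ev) := by apply ext' <;> simp
      rw [e, h2]
    rw [inner_add_left, h1, zero_add, real_inner_smul_left, real_inner_comm, inner_ev] at h3
    exact h3

lemma snd_tendsto (hU0 : ∀ p, Tendsto (fun i => U i p) atTop (𝓝 (U0 p))) :
    Tendsto (fun i => (U i (U0.symm ev)).snd) atTop (𝓝 1) := by
  have := (cont_snd.tendsto _).comp (hU0 (U0.symm ev))
  rw [LinearIsometryEquiv.apply_symm_apply, ev_snd] at this
  exact this

end limit

end Pool.Agent.Q76.HR
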