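import Pool.Agent.Q76.HR.Limit

set_option autoImplicit false
set_option linter.unusedSectionVars false

open Set Filter Topology

namespace Pool.Agent.Q76.HR

variable {F : Type*} [NormedAddCommGroup F] [InnerProductSpace ℝ F]

lemma Rel.trans {O O' : Sp F ≃ₗᵢ[ℝ] Sp F} {τ τ' : Sp F} {f g h : F → ℝ} (h1 : Rel O τ f g)
    (h2 : Rel O' τ' g h) : Rel (O.trans O') (O' τ + τ') f h := by
  intro p
  rw [h1 p, h2]
  simp only [map_add, LinearIsometryEquiv.trans_apply, add_assoc]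

lemma Gr_add_La {f : F → ℝ} {p q : Sp F} (hp : p ∈ Gr f) (hq : q ∈ La f) : p - q ∈ Gr f := by
  have := La_iff.1 hq p hp (-1)
  rwa [neg_one_smul, ← sub_eq_add_neg] at this

/-- The position of the image of the special direction. -/
def Good (f : F → ℝ) (c : ℝ) (q : Sp F) : Prop :=
  ∃ l ∈ La (sc f c), ∃ α : ℝ, q = l + α • ev ∧ α * q.snd = 1

/-- The functional equation. -/
lemma functional [FiniteDimensional ℝ F] {f : F → ℝ} {a b : ℝ} (ha : 0 < a) (hb : 0 < b)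
    {R : Sp F ≃ₗᵢ[ℝ] Sp F} {τ : Sp F} (h : Rel R τ (sc f b) (sc f a)) {p q : Sp F}
    (hpq : R p = q) (hp : Good f b p) (hq : Good f a q) :
    ∃ (R' : (Vs f)ᗮ ≃ₗᵢ[ℝ] (Vs f)ᗮ) (d : (Vs f)ᗮ) (s : ℝ), ∀ z : (Vs f)ᗮ,
      f ((((a / b) • R' z + d : (Vs f)ᗮ) : F)) = p.snd / q.snd * f (z : F) + s := by
  obtain ⟨lp, hlp, αp, hp1, hp2⟩ := hp
  obtain ⟨lq, hlq, αq, hq1, hq2⟩ := hq
  have hαp : αp ≠ 0 := by rintro rfl; simp at hp2
  have hαq : αq ≠ 0 := by rintro rfl; simp at hq2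
  have hqs : q.snd ≠ 0 := by intro h0; rw [h0] at hq2; simp at hq2
  -- image of `ev`
  obtain ⟨m, hm, hRev⟩ : ∃ m ∈ La (sc f a), R ev = (p.snd / q.snd) • ev + m := by
    refine ⟨p.snd • (lq - R lp), (La _).smul_mem _ ((La _).sub_mem hlq (h.La_map hlp)), ?_⟩
    have e1 : ev = p.snd • (p - lp) := by
      nth_rewrite 2 [hp1]
      rw [add_sub_cancel_left, smul_smul, mul_comm, hp2, one_smul]
    have e2 : R ev = p.snd • (q - R lp) := by
      nth_rewrite 1 [e1]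
      rw [map_smul, map_sub, hpq]
    rw [e2]
    nth_rewrite 1 [hq1]
    have e3 : αq = 1 / q.snd := by rw [eq_div_iff hqs]; exact hq2
    rw [e3]
    have e4 : p.snd / q.snd = p.snd * (1 / q.snd) := by ring
    rw [e4, mul_smul, ← smul_add]
    congr 1
    abel
  -- the horizontal orthogonal complement
  have hsnd : ∀ y : F, y ∈ (Vs f)ᗮ → (R (pt y 0)).snd = 0 := by
    intro y hy
    rw [Submodule.mem_orthogonal'] at hy
    have h1 : inner ℝ (R (pt y 0)) q = 0 := by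
      rw [← hpq, R.inner_map_map, inner_sp, pt_snd, zero_mul, add_zero, pt_fst]
      have : p.fst = lp.fst := by rw [hp1]; simp
      rw [this]
      exact hy _ (fst_mem_Vs hb hlp)
    have h2 : inner ℝ (R (pt y 0)) lq = 0 := by
      have h3 : R.symm lq ∈ La (sc f b) := h.symm.La_map hlq
      rw [← R.symm.inner_map_map, LinearIsometryEquiv.symm_apply_apply, inner_sp, pt_snd, zero_mul,
        add_zero, pt_fst]
      exact hy _ (fst_mem_Vs hb h3)
    rw [hq1, inner_add_right, h2, zero_add, real_inner_smul_right, inner_ev] at h1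
    exact (mul_eq_zero.1 h1).resolve_left hαq
  have hfst : ∀ y : F, y ∈ (Vs f)ᗮ → (R (pt y 0)).fst ∈ (Vs f)ᗮ := by
    intro y hy
    have hy' := hy
    rw [Submodule.mem_orthogonal'] at hy' ⊢
    intro v hv
    obtain ⟨t, ht⟩ := exists_La_sc ha hv
    have h3 : R.symm (pt v t) ∈ La (sc f b) := h.symm.La_map ht
    have h2 : inner ℝ (R (pt y 0)) (pt v t) = 0 := by
      rw [← R.symm.inner_map_map, LinearIsometryEquiv.symm_apply_apply, inner_sp, pt_snd, zero_mul,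
        add_zero, pt_fst]
      exact hy' _ (fst_mem_Vs hb h3)
    rw [inner_sp, hsnd y hy, zero_mul, add_zero, pt_fst] at h2
    exact h2
  -- the linear isometry
  let Rl : (Vs f)ᗮ →ₗᵢ[ℝ] (Vs f)ᗮ :=
    { toFun := fun y => ⟨(R (pt (y : F) 0)).fst, hfst y y.2⟩
      map_add' := by
        intro y z
        apply Subtype.ext
        have e : pt ((y + z : (Vs f)ᗮ) : F) 0 = pt (y : F) 0 + pt (z : F) 0 := by
          apply ext' <;> simp
        change (R (pt ((y + z : (Vs f)ᗮ) : F) 0)).fst = (R (pt (y : F) 0)).fst + (R (pt (z : F) 0)).fst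
        rw [e, map_add, fst_add]
      map_smul' := by
        intro r y
        apply Subtype.ext
        have e : pt ((r • y : (Vs f)ᗮ) : F) 0 = r • pt (y : F) 0 := by
          apply ext' <;> simp
        change (R (pt ((r • y : (Vs f)ᗮ) : F) 0)).fst = r • (R (pt (y : F) 0)).fst
        rw [e, map_smul, fst_smul]
      norm_map' := by
        intro y
        have h1 : ‖R (pt (y : F) 0)‖ = ‖pt (y : F) 0‖ := R.norm_map _
        have h2 : ∀ p : Sp F, p.snd = 0 → ‖p‖ ^ 2 = ‖p.fst‖ ^ 2 := by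
          intro p hp
          rw [← real_inner_self_eq_norm_sq, inner_sp, hp, mul_zero, add_zero,
            real_inner_self_eq_norm_sq]
        have h3 := h2 _ (hsnd y y.2)
        have h4 := h2 (pt (y : F) 0) rfl
        rw [h1, h4, pt_fst] at h3
        change ‖(R (pt (y : F) 0)).fst‖ = ‖(y : F)‖
        exact ((sq_eq_sq₀ (norm_nonneg _) (norm_nonneg _)).1 h3).symm }
  let R' : (Vs f)ᗮ ≃ₗᵢ[ℝ] (Vs f)ᗮ := Rl.toLinearIsometryEquiv rfl
  have hR' : ∀ y : (Vs f)ᗮ, ((R' y : (Vs f)ᗮ) : F) = (R (pt (y : F) 0)).fst := fun y => rfl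
  -- the translation
  set w : F := (Vs f).starProjection τ.fst with hw
  have hwV : w ∈ Vs f := Submodule.starProjection_apply_mem _ _
  have hwo : τ.fst - w ∈ (Vs f)ᗮ := Submodule.sub_starProjection_mem_orthogonal _
  obtain ⟨t, ht⟩ := exists_La_sc ha hwV
  refine ⟨R', a • ⟨τ.fst - w, hwo⟩, τ.snd - t, fun z => ?_⟩
  have hz : ((b⁻¹ • z : (Vs f)ᗮ) : F) = b⁻¹ • (z : F) := rfl
  have h1 : pt (b⁻¹ • (z : F)) (f (z : F)) ∈ Gr (sc f b) := by
    simp [Gr, sc, smul_smul, mul_inv_cancel₀ hb.ne']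
  have h2 := (h _).1 h1
  have e1 : pt (b⁻¹ • (z : F)) (f (z : F)) = pt (b⁻¹ • (z : F)) 0 + f (z : F) • ev := by
    apply ext' <;> simp
  have h3 := Gr_add_La (Gr_add_La h2 ((La _).smul_mem (f (z : F)) hm)) ht
  rw [e1, map_add, map_smul, hRev] at h3
  have hs0 : (R (pt (b⁻¹ • (z : F)) 0)).snd = 0 := hsnd _ (by
    rw [← hz]; exact (b⁻¹ • z : (Vs f)ᗮ).2)
  simp only [Gr, Set.mem_ofPred_eq, fst_sub, snd_sub, fst_add, snd_add, fst_smul, snd_smul, hs0,
    ev_fst, ev_snd, pt_fst, pt_snd, sc, smul_zero, zero_add] at h3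
  have e2 : (((a / b) • R' z + a • ⟨τ.fst - w, hwo⟩ : (Vs f)ᗮ) : F) =
      a • ((R (pt (b⁻¹ • (z : F)) 0)).fst + f (z : F) • m.fst + τ.fst - f (z : F) • m.fst - w) := by
    have e3 : ((R' (b⁻¹ • z) : (Vs f)ᗮ) : F) = (R (pt (b⁻¹ • (z : F)) 0)).fst := hR' _
    rw [← e3, map_smul]
    simp only [Submodule.coe_add, Submodule.coe_smul]
    have e4 : b⁻¹ • ((R' z : (Vs f)ᗮ) : F) + f (z : F) • m.fst + τ.fst - f (z : F) • m.fst - w =
        b⁻¹ • ((R' z : (Vs f)ᗮ) : F) + (τ.fst - w) := by abel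
    rw [e4, smul_add, smul_smul, div_eq_mul_inv]
  rw [e2, ← h3]
  ring

/-- The self-similarity as a map of the orthogonal complement. -/
lemma selfsim [FiniteDimensional ℝ F] {f : F → ℝ} {a b : ℝ} (ha : 0 < a) (hb : 0 < b)
    {R : Sp F ≃ₗᵢ[ℝ] Sp F} {τ : Sp F} (h : Rel R τ (sc f b) (sc f a)) {p q : Sp F}
    (hpq : R p = q) (hp : Good f b p) (hq : Good f a q) :
    ∃ S : (Vs f)ᗮ → (Vs f)ᗮ, Function.Surjective S ∧
      (∀ x y, dist (S x) (S y) = a / b * dist x y) ∧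
      ∀ x y : (Vs f)ᗮ, |f (S x : F) - f (S y : F)| = |p.snd| / |q.snd| * |f (x : F) - f (y : F)| := by
  obtain ⟨R', d, s, hR⟩ := functional ha hb h hpq hp hq
  refine ⟨fun z => (a / b) • R' z + d, ?_, ?_, ?_⟩
  · intro u
    refine ⟨R'.symm ((a / b)⁻¹ • (u - d)), ?_⟩
    simp only [LinearIsometryEquiv.apply_symm_apply, smul_smul]
    rw [mul_inv_cancel₀ (div_pos ha hb).ne', one_smul, sub_add_cancel]
  · intro x y
    rw [dist_add_right, dist_smul₀, R'.dist_map, Real.norm_eq_abs, abs_of_pos (div_pos ha hb)]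
  · intro x y
    rw [hR, hR, add_sub_add_right_eq_sub, ← mul_sub, abs_mul, abs_div]

lemma Good.neg {f : F → ℝ} {c : ℝ} {q : Sp F} (h : Good f c q) : Good f c (-q) := by
  obtain ⟨l, hl, α, h1, h2⟩ := h
  refine ⟨-l, (La _).neg_mem hl, -α, ?_, ?_⟩
  · rw [h1, neg_add, neg_smul]
  · rw [snd_neg]; linarith

lemma Good.snd_ne {f : F → ℝ} {c : ℝ} {q : Sp F} (h : Good f c q) : q.snd ≠ 0 := by
  obtain ⟨l, hl, α, h1, h2⟩ := h
  intro h0
  rw [h0] at h2
  simp at h2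

lemma abs_snd_le (p : Sp F) : |p.snd| ≤ ‖p‖ := by
  have := abs_real_inner_le_norm p ev
  rwa [inner_ev, norm_ev, mul_one] at this

/-- A pointwise limit of linear isometries along a subsequence. -/
lemma exists_limit_aux {E' : Type*} [NormedAddCommGroup E'] [NormedSpace ℝ E']
    [FiniteDimensional ℝ E'] (U : ℕ → (E' ≃ₗᵢ[ℝ] E')) :
    ∃ (φ : ℕ → ℕ) (U0 : E' ≃ₗᵢ[ℝ] E'), StrictMono φ ∧
      ∀ p, Tendsto (fun i => U (φ i) p) atTop (𝓝 (U0 p)) := by
  let T : ℕ → (E' →L[ℝ] E') := fun i => ((U i).toContinuousLinearEquiv : E' →L[ℝ] E')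
  have : ProperSpace (E' →L[ℝ] E') := FiniteDimensional.proper ℝ (E' →L[ℝ] E')
  have hT : ∀ i, T i ∈ Metric.closedBall (0 : E' →L[ℝ] E') 1 := by
    intro i
    rw [mem_closedBall_zero_iff]
    refine ContinuousLinearMap.opNorm_le_bound _ zero_le_one fun x => ?_
    rw [one_mul]
    exact ((U i).norm_map x).le
  obtain ⟨T0, -, φ, hφ, hlim⟩ := tendsto_subseq_of_bounded Metric.isBounded_closedBall hT
  have hpt : ∀ p, Tendsto (fun i => U (φ i) p) atTop (𝓝 (T0 p)) := fun p =>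
    ((ContinuousLinearMap.apply ℝ E' p).continuous.tendsto T0).comp hlim
  have hnorm : ∀ p, ‖T0 p‖ = ‖p‖ := by
    intro p
    have h1 := (hpt p).norm
    have h2 : (fun i => ‖U (φ i) p‖) = fun _ => ‖p‖ := funext fun i => (U (φ i)).norm_map p
    rw [h2] at h1
    exact (tendsto_nhds_unique h1 tendsto_const_nhds)
  let L : E' →ₗᵢ[ℝ] E' := ⟨T0.toLinearMap, hnorm⟩
  exact ⟨φ, L.toLinearIsometryEquiv rfl, hφ, hpt⟩

lemma exists_limit [FiniteDimensional ℝ F] (U : ℕ → (Sp F ≃ₗᵢ[ℝ] Sp F)) :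
    ∃ (φ : ℕ → ℕ) (U0 : Sp F ≃ₗᵢ[ℝ] Sp F), StrictMono φ ∧
      ∀ p, Tendsto (fun i => U (φ i) p) atTop (𝓝 (U0 p)) := exists_limit_aux U

/-- A function whose restriction to the orthogonal complement is constant is affine. -/
lemma affine_of_const [FiniteDimensional ℝ F] {f : F → ℝ}
    (hconst : ∀ x y : (Vs f)ᗮ, f (x : F) = f (y : F)) : ∃ L : F →ₗ[ℝ] ℝ, ∀ x, f x = f 0 + L x := by
  -- the slope of a vector of `Vs f`
  have hdec : ∀ x : F, ∃ v ∈ Vs f, ∃ y ∈ (Vs f)ᗮ, x = y + v := by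
    intro x
    refine ⟨(Vs f).starProjection x, Submodule.starProjection_apply_mem _ _,
      x - (Vs f).starProjection x, Submodule.sub_starProjection_mem_orthogonal _, ?_⟩
    abel
  have h0 : ∀ y ∈ (Vs f)ᗮ, f y = f 0 := fun y hy => hconst ⟨y, hy⟩ 0
  have hval : ∀ y ∈ (Vs f)ᗮ, ∀ v t, pt v t ∈ La f → f (y + v) = f 0 + t := by
    intro y hy v t ht
    have := ht y 1
    simp only [one_smul, one_mul, pt_fst, pt_snd] at this
    rw [this, h0 y hy]
  refine ⟨{ toFun := fun x => f x - f 0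
            map_add' := ?_
            map_smul' := ?_ }, fun x => ?_⟩
  · intro x x'
    obtain ⟨v, ⟨t, ht⟩, y, hy, rfl⟩ := hdec x
    obtain ⟨v', ⟨t', ht'⟩, y', hy', rfl⟩ := hdec x'
    have e : y + v + (y' + v') = (y + y') + (v + v') := by abel
    have h1 : pt (v + v') (t + t') ∈ La f := (La f).add_mem ht ht'
    rw [e, hval _ ((Vs f)ᗮ.add_mem hy hy') _ _ h1, hval _ hy _ _ ht, hval _ hy' _ _ ht']
    ring
  · intro r x
    obtain ⟨v, ⟨t, ht⟩, y, hy, rfl⟩ := hdec x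
    have h1 : pt (r • v) (r * t) ∈ La f := (La f).smul_mem r ht
    rw [smul_add, hval _ ((Vs f)ᗮ.smul_mem r hy) _ _ h1, hval _ hy _ _ ht]
    simp
  · simp

/-- **Main theorem.** -/
theorem main [FiniteDimensional ℝ F] {f : F → ℝ} (hf : Continuous f) {c : ℕ → ℝ}
    (hc : ∀ i, 0 < c i) (hc0 : Tendsto c atTop (𝓝 0))
    (hrel : ∀ i, ∃ (O : Sp F ≃ₗᵢ[ℝ] Sp F) (τ : Sp F), Rel O τ f (sc f (c i))) :
    ∃ L : F →ₗ[ℝ] ℝ, ∀ x, f x = f 0 + L x := by
  choose O τ hO using hrel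
  choose U hUO hUC hUL using fun i => (hO i).exists_sign hf (sc_cont hf (c i))
  obtain ⟨φ, U0, hφ, hU0⟩ := exists_limit U
  set r : Sp F := U0.symm ev with hr
  have hrn : ‖r‖ = 1 := by rw [hr, LinearIsometryEquiv.norm_map, norm_ev]
  have hcφ : Tendsto (fun i => c (φ i)) atTop (𝓝 0) := hc0.comp hφ.tendsto_atTop
  have htail := tail (U := fun i => U (φ i)) (c := fun i => c (φ i)) hf (fun i => hc _) hcφ
    (fun i p => hUC (φ i) p) (fun i p => hUL (φ i) p) hU0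
  have hsnd := snd_tendsto hU0
  rw [← hr] at htail hsnd
  have hgood : ∀ᶠ i in atTop, Good f (c (φ i)) (O (φ i) r) := by
    filter_upwards [htail] with i hi
    rcases hUO (φ i) with h | h
    · rw [← h]; exact hi
    · have : O (φ i) r = -(U (φ i) r) := by rw [h, neg_neg]
      rw [this]
      exact Good.neg hi
  set s : ℕ → ℝ := fun i => |(O (φ i) r).snd| with hs
  have hsU : ∀ i, s i = |(U (φ i) r).snd| := by
    intro i
    rcases hUO (φ i) with h | h
    · simp only [hs, h]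
    · simp only [hs, h, snd_neg, abs_neg]
  have hs1 : Tendsto s atTop (𝓝 1) := by
    have := hsnd.abs
    rw [abs_one] at this
    refine this.congr fun i => (hsU i).symm
  have hsle : ∀ i, s i ≤ 1 := by
    intro i
    have := abs_snd_le (O (φ i) r)
    rwa [LinearIsometryEquiv.norm_map, hrn] at this
  -- the self-similarities
  have hself : ∀ i j, Good f (c (φ i)) (O (φ i) r) → Good f (c (φ j)) (O (φ j) r) →
      ∃ S : (Vs f)ᗮ → (Vs f)ᗮ, Function.Surjective S ∧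
      (∀ x y, dist (S x) (S y) = c (φ i) / c (φ j) * dist x y) ∧
      ∀ x y : (Vs f)ᗮ, |f (S x : F) - f (S y : F)| = s j / s i * |f (x : F) - f (y : F)| := by
    intro i j hi hj
    exact selfsim (hc _) (hc _) ((hO (φ j)).symm.trans (hO (φ i))) (by simp) hj hi
  refine affine_of_const ?_
  obtain ⟨j, hj⟩ := hgood.exists
  have hspos : ∀ i, Good f (c (φ i)) (O (φ i) r) → 0 < s i := fun i hi => abs_pos.2 hi.snd_ne
  have hgc : Continuous fun z : (Vs f)ᗮ => f (z : F) := hf.comp continuous_subtype_val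
  have hlt : ∀ ε, 0 < ε → ∀ᶠ i in atTop, c (φ i) < ε := fun ε hε => hcφ.eventually_lt_const hε
  by_cases h1 : 1 ≤ s j
  · obtain ⟨i, hi, hij⟩ := (hgood.and (hlt _ (hc (φ j)))).exists
    obtain ⟨S, -, hS, hgS⟩ := hself i j hi hj
    refine const_of_one hgc (div_pos (hc _) (hc _)).le ((div_lt_one (hc _)).2 hij) hS
      (l := s j / s i) ?_ hgS
    rw [le_div_iff₀ (hspos i hi), one_mul]
    exact (hsle i).trans h1
  · have h1' : s j < 1 := not_le.1 h1
    obtain ⟨i, ⟨hi, hij⟩, hsi⟩ :=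
      ((hgood.and (hlt _ (hc (φ j)))).and (hs1.eventually_const_lt h1')).exists
    obtain ⟨S, hsurj, hS, hgS⟩ := hself i j hi hj
    set ρ : ℝ := c (φ i) / c (φ j) with hρ
    set l : ℝ := s j / s i with hl
    have hρ0 : 0 < ρ := div_pos (hc _) (hc _)
    have hρ1 : ρ < 1 := (div_lt_one (hc _)).2 hij
    have hl0 : 0 < l := div_pos (hspos j hj) (hspos i hi)
    have hl1 : l < 1 := (div_lt_one (hspos i hi)).2 hsi
    obtain ⟨N, hN⟩ := exists_pow_lt_of_lt_one (hspos j hj) hl1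
    have hN0 : N ≠ 0 := by
      rintro rfl
      rw [pow_zero] at hN
      linarith
    obtain ⟨k, hk, hkc⟩ := (hgood.and (hlt _ (mul_pos (pow_pos hρ0 N) (hc (φ j))))).exists
    obtain ⟨S₂, -, hS₂, hgS₂⟩ := hself k j hk hj
    refine const_of_two hgc (S₁ := S^[N]) (S₂ := S₂) (ρ₁ := ρ ^ N) (l₁ := l ^ N)
      (div_pos (hc _) (hc _)) ?_ (pow_lt_one₀ hρ0.le hρ1 hN0) (fun a b => iter_dist hS N a b) hS₂
      (hsurj.iterate N) (pow_pos hl0 N) ?_ (hN.trans h1') (fun a b => iter_val (g := fun z : (Vs f)ᗮ => f (z : F)) hgS N a b) hgS₂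
    · rw [div_le_iff₀ (hc _)]; exact hkc.le
    · refine hN.trans_le ?_
      rw [le_div_iff₀ (hspos k hk)]
      exact mul_le_of_le_one_right (hspos j hj).le (hsle k)

end Pool.Agent.Q76.HR
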